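import Pool.Agent.Helper41.PS.Bridge
import Pool.Agent.Helper41.PS.Bridge2
import Pool.Agent.Helper99.PS.Model

/-!
# The Palais-Smale property of the mean field functional away from `8πℕ`

Let `M` be a closed connected Riemannian surface of volume one, `h` a smooth positive function and
`lam > 0` a number which is not of the form `8πk`. Then the functional
`J(u) = 1/2 ∫ |∇u|² + lam ∫ u - lam log ∫ h e^u` on `H1(M)` has the Palais-Smale property.

The Sobolev space `H1(M)` exists; its elements are determined by the functions they represent,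
the exponentials of these functions are integrable and `J` is continuously differentiable.
-/

open MeasureTheory Set Manifold Bundle Filter Topology
open scoped ContDiff ENNReal

namespace Pool.Agent.Results.MP_577350_an.PSProperty

open Pool.Agent.Helper41.PSShort

universe u v

theorem aux {M : Type*} [TopologicalSpace M] [T2Space M] [CompactSpace M] [ConnectedSpace M]
    [ChartedSpace Helper41.PS.E2 M] [IsManifold (𝓡 2) ∞ M]
    [RiemannianBundle (fun x : M => TangentSpace (𝓡 2) x)]
    [IsContMDiffRiemannianBundle (𝓡 2) ∞ Helper41.PS.E2 (fun x : M => TangentSpace (𝓡 2) x)]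
    [MeasurableSpace M] [BorelSpace M] (vol : Measure M) [IsProbabilityMeasure vol]
    (hvol : Helper41.PS.IsRiemannianVolume vol) (h : M → ℝ)
    (hh : ContMDiff (𝓡 2) 𝓘(ℝ, ℝ) ∞ h)
    (hpos : ∀ x, 0 < h x) (lam : ℝ) (hlam : 0 < lam) (hne : ∀ k : ℕ, lam ≠ 8 * Real.pi * k)
    {H : Type*} [NormedAddCommGroup H] [InnerProductSpace ℝ H] (j : H → M → ℝ)
    (Φ : Helper9.PS.H1 vol ≃ₗᵢ[ℝ] H) (hΦ : ∀ w, j (Φ w) =ᵐ[vol] Helper9.PS.toL2 vol w) :
    (∀ w w', j w =ᵐ[vol] j w' → w = w') ∧
      (∀ (w : H) (q : ℝ), Integrable (fun x => Real.exp (q * j w x)) vol) ∧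
      ContDiff ℝ 1 (J vol j h lam) ∧ PalaisSmale vol j h lam := by
  have hX := Helper33.PS.exists_exp_bound vol hvol
  refine transfer vol j Φ hΦ h lam (Helper99.PS.toL2_injective vol hvol) (fun u q => ?_)
    (Helper9.PS.contDiff_J hX hh.continuous hpos lam)
    (Helper41.PS.psProperty vol hvol hh hpos hlam hne)
  obtain ⟨C, -, hC⟩ := Helper9.PS.expBd hX |q| (‖u‖ ^ 2)
  refine (hC u le_rfl).1.mono' ?_ ?_
  · exact ((Helper9.PS.meas_Lp (Helper9.PS.toL2 vol u)).const_mul q).exp.aestronglyMeasurable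
  · refine Eventually.of_forall (fun x => ?_)
    rw [Real.norm_eq_abs, Real.abs_exp]
    apply Real.exp_le_exp.mpr
    rw [← abs_mul]
    exact le_abs_self _

theorem result {M : Type u} [TopologicalSpace M] [T2Space M] [CompactSpace M] [ConnectedSpace M]
    [ChartedSpace EE M] [IsManifold 𝓘(ℝ, EE) ∞ M] [MeasurableSpace M] [BorelSpace M]
    (g : Metric M) (vol : Measure M) [IsProbabilityMeasure vol] (hvol : IsArea g vol)
    (h : M → ℝ) (hh : Smooth h) (hpos : ∀ x, 0 < h x) (lam : ℝ) (hlam : 0 < lam)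
    (hne : ∀ k : ℕ, lam ≠ 8 * Real.pi * k) :
    (∃ (H : Type u) (_ : NormedAddCommGroup H) (_ : InnerProductSpace ℝ H) (_ : CompleteSpace H)
      (ι : (M → ℝ) → H) (j : H → M → ℝ), IsSobolev g vol ι j) ∧
    ∀ {H : Type v} [NormedAddCommGroup H] [InnerProductSpace ℝ H] [CompleteSpace H]
      (ι : (M → ℝ) → H) (j : H → M → ℝ), IsSobolev g vol ι j →
      (∀ w w', j w =ᵐ[vol] j w' → w = w') ∧
      (∀ (w : H) (q : ℝ), Integrable (fun x => Real.exp (q * j w x)) vol) ∧
      ContDiff ℝ 1 (J vol j h lam) ∧ PalaisSmale vol j h lam := by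
  letI := chE (M := M)
  haveI := mfE (M := M)
  letI := rbE g
  haveI := crbE g
  have hdir : ∀ u v : M → ℝ, ∫ x, dot g x (grad g u x) (grad g v x) ∂vol
      = ∫ x, inner ℝ (Helper41.PS.grad u x) (Helper41.PS.grad v x) ∂vol := by
    intro u v
    refine integral_congr_ae (Eventually.of_forall fun x => ?_)
    exact dir_eq g u v x
  refine ⟨⟨Helper9.PS.H1 vol, inferInstance, inferInstance, inferInstance, iota vol,
    fun w => Helper9.PS.toL2 vol w, ?_⟩, ?_⟩
  · refine ⟨fun u v hu hv => ?_, iota_dense vol, fun w => ?_, toL2_cont vol, fun u hu => ?_⟩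
    · rw [hdir]
      exact iota_inner vol hu hv
    · exact (Lp.memLp _).1
    · exact toL2_repr vol hu
  · intro H _ _ _ ι j hS
    obtain ⟨Φ, hΦ⟩ := Helper99.PS.exists_equiv vol ι j
      (fun u v hu hv => by rw [hS.inner_eq u v hu hv, hdir]) hS.dense hS.meas hS.cont hS.repr
    exact aux vol hvol h hh hpos lam hlam hne j Φ hΦ

end Pool.Agent.Results.MP_577350_an.PSProperty
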